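import Pool.Agent.Work.MP_22f354_an.Final

/-!
# Almost every level set of a prevalent Weierstrass function has dimension `1 - α`

Full positive answer to Q1: for every integer `b ≥ 2` and every `0 < α < 1`, a prevalent
`g ∈ Lip(S¹)` is non-constant and satisfies `dim_H (W_g⁻¹{y}) = 1 - α` for Lebesgue-almost every
`y` in the range of `W_g`.

Outline. For each `b`-adic interval `J` of length `b^{-n}` rescale `W_g` on `J` by `b^{αn}`, and
let `m_J` be the Fourier transform of the distribution of this rescaled function. If the energies
`∫ |m_J|²` are bounded uniformly over all `J` then almost every level set over the range has
dimension `1 - α`: the local occupation densities have bounded `L²` norms, their sum over a scale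
gives a finite energy for almost every level, and a density point argument shows that the global
occupation density is positive almost everywhere on the range.

The uniform energy bound holds for prevalent `g`. The transverse measure is the distribution of a
random series of tent functions at the nodes `i / b^{j+1}` with independent coefficients having a
smooth density. The `2M`-th moment of `|m_J(ξ)|` is an integral over `2M` points of the expectation
of a phase; the phase averages out unless every one of the `2MG` positions `b^{mj} u_l` is close to
another position `b^k u_{l'}`. Each such coincidence determines `j` digits up to a carry, and a
combinatorial lemma shows that at least half of the `2MGj` digits are determined by the others, so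
the exceptional set has measure at most `b^{-MGj}` up to a polynomial factor in `j`. With `G` and
`M` large this beats the number of frequencies and of intervals to be controlled, and deeper
intervals are compared with intervals of depth proportional to `j`.
-/

set_option autoImplicit false

namespace Pool.Agent.Results.MP_22f354_an.PrevalentLevelSets

open MeasureTheory Pool.Agent.Work.MP_22f354_an

/-- Q1 of MP_22f354_an. -/
theorem result :
    ∀ (b : ℕ) (α : ℝ), 2 ≤ b → 0 < α → α < 1 →
      IsPrevalent {g : LipS | (¬ ∃ c : ℝ, ∀ x, g x = c) ∧
        ∀ᵐ y : ℝ, y ∈ Set.range (W b α g) →
          dimH (W b α g ⁻¹' {y}) = ENNReal.ofReal (1 - α)} := by
  intro b α hb hα hα1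
  exact main hb hα hα1

end Pool.Agent.Results.MP_22f354_an.PrevalentLevelSets
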